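import Pool.Agent.Helper52.SX.Goals2

/-!
# SX-EXH: few assignments reach the depth `D`
-/

namespace Pool.Agent.Helper60.SX

open Pool.Agent.Helper81.CC Pool.Agent.Helper78.DT Pool.Agent.Helper51.ZP Pool.Agent.Helper65.CS
open Pool.Agent.Helper52.SX
open Pool.Agent.Helper78.JT (Clause CList Circuit Holds out cnt size Narrow coin)
open scoped Classical

namespace EXH

/-- The clause has no literal in `a`. -/
def f1 (a : List (ℕ × Bool)) (C : Clause) : Bool := !(C.any fun p => a.contains p)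

/-- The opposite literal is not in `a`. -/
def f2 (a : List (ℕ × Bool)) (p : ℕ × Bool) : Bool := !a.contains (p.1, !p.2)

theorem f1_iff {a : List (ℕ × Bool)} {C : Clause} : f1 a C = true ↔ ∀ p ∈ C, p ∉ a := by
  unfold f1
  simp

theorem f2_iff {a : List (ℕ × Bool)} {p : ℕ × Bool} : f2 a p = true ↔ (p.1, !p.2) ∉ a := by
  unfold f2
  simp

theorem nx_eq (F : List Clause) (a : List (ℕ × Bool)) : nx F a =
    match F.find? (f1 a) with
    | none => 1
    | some C => match C.find? (f2 a) with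
      | some p => p.1 + 2
      | none => 0 := rfl

theorem nx_some {F : List Clause} {a : List (ℕ × Bool)} (h : 2 ≤ nx F a) :
    ∃ C p, F.find? (f1 a) = some C ∧ C.find? (f2 a) = some p ∧ nx F a = p.1 + 2 := by
  rw [nx_eq] at h ⊢
  rcases h1 : F.find? (f1 a) with _ | C
  · rw [h1] at h; simp at h
  · rcases h2 : C.find? (f2 a) with _ | p
    · rw [h1] at h; simp only [h2] at h; omega
    · refine ⟨C, p, rfl, h2, ?_⟩
      simp only [h2]

theorem find_spec {α : Type*} {l : List α} {P : α → Bool} {b : α} (h : l.find? P = some b) :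
    b ∈ l ∧ P b = true := ⟨List.mem_of_find?_eq_some h, List.find?_some h⟩

/-- The variable which is read next is new. -/
theorem fresh {n : ℕ} {F : List Clause} (hF : Cln n F) {a : List (ℕ × Bool)} (h : 2 ≤ nx F a) :
    nx F a - 2 < n ∧ ∀ q ∈ a, q.1 ≠ nx F a - 2 := by
  obtain ⟨C, p, h1, h2, h3⟩ := nx_some h
  obtain ⟨hC, hC1⟩ := find_spec h1
  obtain ⟨hp, hp1⟩ := find_spec h2
  rw [f1_iff] at hC1
  rw [f2_iff] at hp1
  rw [h3, Nat.add_sub_cancel]
  refine ⟨((hF C hC).2 p hp).1, fun q hq he => ?_⟩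
  rcases Bool.eq_or_eq_not q.2 p.2 with hb | hb
  · exact hC1 p hp ((Prod.ext he hb : q = p) ▸ hq)
  · exact hp1 ((Prod.ext he hb : q = (p.1, !p.2)) ▸ hq)

/-- The state after `d` steps. -/
def it {n : ℕ} (F : List Clause) (x : Fin n → Bool) (d : ℕ) (a : List (ℕ × Bool)) :
    List (ℕ × Bool) :=
  (fun a : List (ℕ × Bool) =>
    if 2 ≤ nx F a then a ++ [(nx F a - 2, coin x (nx F a - 2))] else a)^[d] a

theorem it_zero {n : ℕ} (F : List Clause) (x : Fin n → Bool) (a : List (ℕ × Bool)) :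
    it F x 0 a = a := rfl

theorem it_succ {n : ℕ} (F : List Clause) (x : Fin n → Bool) (d : ℕ) (a : List (ℕ × Bool))
    (h : 2 ≤ nx F a) :
    it F x (d + 1) a = it F x d (a ++ [(nx F a - 2, coin x (nx F a - 2))]) := by
  unfold it
  rw [Function.iterate_succ_apply]
  simp only [if_pos h]

theorem it_stop {n : ℕ} (F : List Clause) (x : Fin n → Bool) (a : List (ℕ × Bool))
    (h : ¬ 2 ≤ nx F a) : ∀ d : ℕ, it F x d a = a := by
  intro d
  induction d with
  | zero => rfl
  | succ d ih =>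
    unfold it at ih ⊢
    rw [Function.iterate_succ_apply]
    simp only [if_neg h]
    exact ih

/-- The run does not depend on the variables which are already read. -/
theorem it_indep {n : ℕ} {F : List Clause} (hF : Cln n F) (v : Fin n) (b : Bool)
    (x : Fin n → Bool) : ∀ (d : ℕ) (a : List (ℕ × Bool)), (∃ c, ((v : ℕ), c) ∈ a) →
    it F (Function.update x v b) d a = it F x d a := by
  intro d
  induction d with
  | zero => intro a _; rfl
  | succ d ih =>
    intro a ha
    by_cases h : 2 ≤ nx F a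
    · rw [it_succ F _ d a h, it_succ F _ d a h]
      obtain ⟨c, hc⟩ := ha
      obtain ⟨h1, h2⟩ := fresh hF h
      have h3 : coin (Function.update x v b) (nx F a - 2) = coin x (nx F a - 2) := by
        unfold coin
        rw [dif_pos h1, dif_pos h1, Function.update_of_ne]
        intro he
        exact h2 _ hc (congrArg Fin.val he).symm
      rw [h3]
      exact ih _ ⟨c, List.mem_append_left _ hc⟩
    · rw [it_stop F _ a h, it_stop F _ a h]

/-- Splitting at one coordinate. -/
theorem pr_split {n : ℕ} (v : Fin n) (E : Bool → (Fin n → Bool) → Prop)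
    (hE : ∀ b x c, E b (Function.update x v c) ↔ E b x) :
    pr (fun x : Fin n → Bool => E (x v) x) = (pr (E true) + pr (E false)) / 2 := by
  let e : (Fin n → Bool) ≃ (Fin n → Bool) :=
    { toFun := fun x => Function.update x v (!x v)
      invFun := fun x => Function.update x v (!x v)
      left_inv := fun x => by simp
      right_inv := fun x => by simp }
  have h1 : pr (fun x : Fin n → Bool => E (x v) x) =
      pr (fun x : Fin n → Bool => E (!x v) x) := by
    rw [← pr_equiv e (fun x : Fin n → Bool => E (x v) x)]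
    refine pr_congr fun x => ?_
    show E (Function.update x v (!x v) v) (Function.update x v (!x v)) ↔ _
    rw [Function.update_self, hE]
  have h2 : pr (fun x : Fin n → Bool => E (x v) x) + pr (fun x : Fin n → Bool => E (!x v) x) =
      pr (E true) + pr (E false) := by
    unfold pr
    rw [← av_add, ← av_add]
    refine av_congr fun x => ?_
    rcases hb : x v with _ | _
    · simp only [hb, Bool.not_false]
      exact add_comm _ _
    · simp only [hb, Bool.not_true]
  linarith

/-- The probability that the depth `d` is exceeded, starting from `a`. -/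
noncomputable def W (F : List Clause) : ℕ → List (ℕ × Bool) → ℝ
  | 0, a => if 2 ≤ nx F a then 1 else 0
  | d + 1, a => if 2 ≤ nx F a then
      (W F d (a ++ [(nx F a - 2, true)]) + W F d (a ++ [(nx F a - 2, false)])) / 2 else 0

theorem pr_const {Ω : Type*} [Fintype Ω] [Nonempty Ω] (P : Prop) :
    pr (fun _ : Ω => P) = if P then 1 else 0 := by
  unfold pr
  exact av_const _

theorem pr_it {n : ℕ} {F : List Clause} (hF : Cln n F) : ∀ (d : ℕ) (a : List (ℕ × Bool)),
    pr (fun x : Fin n → Bool => 2 ≤ nx F (it F x d a)) = W F d a := by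
  intro d
  induction d with
  | zero =>
    intro a
    show pr (fun x : Fin n → Bool => 2 ≤ nx F a) = _
    rw [pr_const]
    unfold W
    split_ifs <;> rfl
  | succ d ih =>
    intro a
    by_cases h : 2 ≤ nx F a
    · obtain ⟨h1, h2⟩ := fresh hF h
      have h3 : pr (fun x : Fin n → Bool => 2 ≤ nx F (it F x (d + 1) a)) =
          pr (fun x : Fin n → Bool => (fun (b : Bool) (y : Fin n → Bool) =>
            2 ≤ nx F (it F y d (a ++ [(nx F a - 2, b)]))) (x ⟨nx F a - 2, h1⟩) x) := by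
        refine pr_congr fun x => ?_
        rw [it_succ F x d a h]
        have : coin x (nx F a - 2) = x ⟨nx F a - 2, h1⟩ := by
          unfold coin; rw [dif_pos h1]
        rw [this]
      refine h3.trans ((pr_split (⟨nx F a - 2, h1⟩ : Fin n)
        (fun (b : Bool) (y : Fin n → Bool) => 2 ≤ nx F (it F y d (a ++ [(nx F a - 2, b)])))
        ?_).trans ?_)
      · intro b x c
        show 2 ≤ nx F (it F (Function.update x _ c) d _) ↔ 2 ≤ nx F (it F x d _)
        rw [it_indep hF _ c x d _ ⟨b, by simp⟩]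
      · show (pr (fun y : Fin n → Bool => 2 ≤ nx F (it F y d (a ++ [(nx F a - 2, true)]))) +
          pr (fun y : Fin n → Bool => 2 ≤ nx F (it F y d (a ++ [(nx F a - 2, false)])))) / 2 = _
        rw [ih, ih]
        show _ = if 2 ≤ nx F a then _ else _
        rw [if_pos h]
    · have h3 : pr (fun x : Fin n → Bool => 2 ≤ nx F (it F x (d + 1) a)) =
          pr (fun _ : Fin n → Bool => False) := by
        refine pr_congr fun x => ?_
        rw [it_stop F x a h]
        simp only [h]
      rw [h3, pr_const]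
      show _ = if 2 ≤ nx F a then _ else _
      rw [if_neg h, if_neg (fun h => h)]

/-- The constants. -/
noncomputable def cc (A : ℝ) : ℕ → ℝ
  | 0 => 0
  | m + 1 => (1 + cc A m) / (2 * A)

theorem cc_nonneg {A : ℝ} (hA : 0 < A) : ∀ m, 0 ≤ cc A m := by
  intro m
  induction m with
  | zero => exact le_refl _
  | succ m ih => unfold cc; positivity

theorem cc_half {A : ℝ} (hA : 0 < A) (hA1 : A ≤ 1) (m : ℕ) : 1 / 2 ≤ cc A (m + 1) := by
  unfold cc
  rw [div_le_div_iff₀ (by norm_num) (by positivity)]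
  have := cc_nonneg hA m
  nlinarith

theorem cc_le {A : ℝ} (hA : 0 < A) (hA1 : A ≤ 1) : ∀ m, cc A m * A ^ m ≤ 1 - (1 / 2) ^ m := by
  intro m
  induction m with
  | zero => simp [cc]
  | succ m ih =>
    have h1 : cc A (m + 1) * A ^ (m + 1) = (A ^ m + cc A m * A ^ m) / 2 := by
      show (1 + cc A m) / (2 * A) * A ^ (m + 1) = _
      rw [pow_succ]
      field_simp
    have h2 : A ^ m ≤ 1 := pow_le_one₀ hA.le hA1
    rw [h1, pow_succ]
    linarith

theorem AA_bounds {k : ℕ} (hk : 2 ≤ k) :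
    (7 : ℝ) / 8 ≤ 1 - 1 / ((k : ℝ) * 2 ^ k) ∧ 1 - 1 / ((k : ℝ) * 2 ^ k) ≤ 1 := by
  have h1 : (2 : ℝ) ≤ k := by exact_mod_cast hk
  have h2 : (4 : ℝ) ≤ 2 ^ k := by
    calc (4 : ℝ) = 2 ^ 2 := by norm_num
      _ ≤ 2 ^ k := pow_le_pow_right₀ (by norm_num) hk
  have h3 : (8 : ℝ) ≤ (k : ℝ) * 2 ^ k := by nlinarith
  have h4 : 1 / ((k : ℝ) * 2 ^ k) ≤ 1 / 8 := one_div_le_one_div_of_le (by norm_num) h3
  have h5 : 0 ≤ 1 / ((k : ℝ) * 2 ^ k) := by positivity
  constructor <;> linarith

theorem cc_le_one {k : ℕ} (hk : 2 ≤ k) {m : ℕ} (hm : m ≤ k) :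
    cc (1 - 1 / ((k : ℝ) * 2 ^ k)) m ≤ 1 := by
  obtain ⟨hA, hA1⟩ := AA_bounds hk
  set A : ℝ := 1 - 1 / ((k : ℝ) * 2 ^ k) with hAd
  have hA0 : 0 < A := by linarith
  have h1 := cc_le hA0 hA1 m
  have hk0 : (0 : ℝ) < k := by exact_mod_cast (by omega : 0 < k)
  -- Bernoulli
  have h2 : 1 - (m : ℝ) * (1 / ((k : ℝ) * 2 ^ k)) ≤ A ^ m := by
    have := one_add_mul_le_pow (a := -(1 / ((k : ℝ) * 2 ^ k))) (by
      have h5 : 1 / ((k : ℝ) * 2 ^ k) ≤ 1 := by linarith
      linarith) m
    calc 1 - (m : ℝ) * (1 / ((k : ℝ) * 2 ^ k)) = 1 + (m : ℝ) * (-(1 / ((k : ℝ) * 2 ^ k))) := by ring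
      _ ≤ (1 + -(1 / ((k : ℝ) * 2 ^ k))) ^ m := this
      _ = A ^ m := by rw [hAd]; ring_nf
  have h3 : (m : ℝ) * (1 / ((k : ℝ) * 2 ^ k)) ≤ (1 / 2) ^ m := by
    have h4 : (m : ℝ) * (1 / ((k : ℝ) * 2 ^ k)) ≤ (k : ℝ) * (1 / ((k : ℝ) * 2 ^ k)) :=
      mul_le_mul_of_nonneg_right (by exact_mod_cast hm) (by positivity)
    have h5 : (k : ℝ) * (1 / ((k : ℝ) * 2 ^ k)) = (1 / 2) ^ k := by
      rw [one_div_pow]; field_simp
    have h6 : ((1 : ℝ) / 2) ^ k ≤ (1 / 2) ^ m :=
      pow_le_pow_of_le_one (by norm_num) (by norm_num) hm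
    linarith
  have h7 : 0 < A ^ m := pow_pos hA0 m
  by_contra hh
  push Not at hh
  nlinarith

/-- The number of the open literals. -/
def mm (a : List (ℕ × Bool)) (C : Clause) : ℕ := (C.filter (f2 a)).length

/-- The number of the long clauses without a literal in `a`. -/
def MM (F : List Clause) (k : ℕ) (a : List (ℕ × Bool)) : ℕ :=
  (F.filter fun C => decide (k < C.length) && f1 a C).length

/-- The bound. -/
noncomputable def Bd (F : List Clause) (k : ℕ) (A : ℝ) (a : List (ℕ × Bool)) : ℝ :=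
  match F.find? (f1 a) with
  | none => 0
  | some C => if C.length ≤ k then 2 * cc A (mm a C) * 3 ^ MM F k a else 2 * 3 ^ MM F k a

theorem f1_mono {a : List (ℕ × Bool)} {q : ℕ × Bool} {C : Clause} (h : f1 (a ++ [q]) C = true) :
    f1 a C = true := by
  rw [f1_iff] at h ⊢
  exact fun p hp ha => h p hp (List.mem_append_left _ ha)

theorem MM_mono (F : List Clause) (k : ℕ) (a : List (ℕ × Bool)) (q : ℕ × Bool) :
    MM F k (a ++ [q]) ≤ MM F k a := by
  unfold MM
  refine (List.monotone_filter_right F fun C hC => ?_).length_le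
  simp only [Bool.and_eq_true, decide_eq_true_eq] at hC ⊢
  exact ⟨hC.1, f1_mono hC.2⟩

theorem MM_lt (F : List Clause) (k : ℕ) (a : List (ℕ × Bool)) (q : ℕ × Bool) {C : Clause}
    (hC : C ∈ F) (hk : k < C.length) (h1 : f1 a C = true) (h2 : q ∈ C) :
    MM F k (a ++ [q]) + 1 ≤ MM F k a := by
  unfold MM
  have h3 : (F.filter fun C => decide (k < C.length) && f1 (a ++ [q]) C) =
      (F.filter fun C => decide (k < C.length) && f1 a C).filter fun C => f1 (a ++ [q]) C := by
    rw [List.filter_filter]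
    refine List.filter_congr fun D _ => ?_
    cases h4 : f1 (a ++ [q]) D
    · simp
    · have := f1_mono h4
      simp [this]
  rw [h3]
  have h4 : ((F.filter fun C => decide (k < C.length) && f1 a C).filter
      fun C => f1 (a ++ [q]) C).length <
      (F.filter fun C => decide (k < C.length) && f1 a C).length := by
    rw [List.length_filter_lt_length_iff_exists]
    refine ⟨C, ?_, ?_⟩
    · rw [List.mem_filter]
      exact ⟨hC, by simp [hk, h1]⟩
    · rw [f1_iff]
      push Not
      exact ⟨q, h2, by simp⟩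
  omega

theorem mm_succ {a : List (ℕ × Bool)} {C : Clause} (hn : C.Nodup) {p : ℕ × Bool} (hp : p ∈ C)
    (h : f2 a p = true) : mm a C = mm (a ++ [(p.1, !p.2)]) C + 1 := by
  unfold mm
  have h1 : C.filter (f2 (a ++ [(p.1, !p.2)])) = (C.filter (f2 a)).filter (fun q => q != p) := by
    rw [List.filter_filter]
    refine List.filter_congr fun q _ => ?_
    rw [Bool.eq_iff_iff]
    simp only [Bool.and_eq_true, f2_iff, List.mem_append, List.mem_singleton, not_or,
      bne_iff_ne, ne_eq]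
    constructor
    · rintro ⟨h2, h3⟩
      exact ⟨fun he => h3 (by rw [he]), h2⟩
    · rintro ⟨h2, h3⟩
      refine ⟨h3, fun he => h2 ?_⟩
      have h4 := congrArg Prod.fst he
      have h5 := congrArg Prod.snd he
      simp only at h4 h5
      exact Prod.ext h4 (by simpa using h5)
  have h2 : (C.filter (f2 a)).Nodup := hn.filter _
  have h3 : p ∈ C.filter (f2 a) := List.mem_filter.2 ⟨hp, h⟩
  rw [h1, ← h2.erase_eq_filter, List.length_erase_of_mem h3]
  have : 0 < (C.filter (f2 a)).length := List.length_pos_of_mem h3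
  omega

theorem find_keep {n : ℕ} {F : List Clause} (hF : Cln n F) {a : List (ℕ × Bool)} {C : Clause}
    {p : ℕ × Bool} (h1 : F.find? (f1 a) = some C) (hp : p ∈ C) :
    F.find? (f1 (a ++ [(p.1, !p.2)])) = some C := by
  obtain ⟨hC, _⟩ := find_spec h1
  rw [List.find?_eq_some_iff_append] at h1 ⊢
  obtain ⟨h2, as, bs, h3, h4⟩ := h1
  refine ⟨?_, as, bs, h3, fun D hD => ?_⟩
  · rw [f1_iff] at h2 ⊢
    intro q hq hm
    rcases List.mem_append.1 hm with hm | hm
    · exact h2 q hq hm
    · rw [List.mem_singleton] at hm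
      exact ((hF C hC).2 p hp).2 (hm ▸ hq)
  · have := h4 D hD
    cases h5 : f1 (a ++ [(p.1, !p.2)]) D
    · rfl
    · rw [f1_mono h5] at this; simp at this

theorem Bd_nonneg (F : List Clause) (k : ℕ) {A : ℝ} (hA : 0 < A) (a : List (ℕ × Bool)) :
    0 ≤ Bd F k A a := by
  unfold Bd
  rcases F.find? (f1 a) with _ | C
  · exact le_refl _
  · simp only
    split_ifs
    · have := cc_nonneg hA (mm a C); positivity
    · positivity

theorem Bd_le (F : List Clause) {k : ℕ} (hk : 2 ≤ k) (a : List (ℕ × Bool)) :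
    Bd F k (1 - 1 / ((k : ℝ) * 2 ^ k)) a ≤ 2 * 3 ^ MM F k a := by
  unfold Bd
  rcases F.find? (f1 a) with _ | C
  · positivity
  · simp only
    split_ifs with h
    · have h1 : mm a C ≤ k := (List.length_filter_le _ _).trans h
      have h2 := cc_le_one hk h1
      have h3 : (0 : ℝ) < 3 ^ MM F k a := by positivity
      nlinarith
    · exact le_refl _

/-- The main estimate. -/
theorem W_le {n : ℕ} {F : List Clause} (hF : Cln n F) {k : ℕ} (hk : 2 ≤ k) :
    ∀ (d : ℕ) (a : List (ℕ × Bool)),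
    W F d a ≤ Bd F k (1 - 1 / ((k : ℝ) * 2 ^ k)) a * (1 - 1 / ((k : ℝ) * 2 ^ k)) ^ d := by
  obtain ⟨hA, hA1⟩ := AA_bounds hk
  set A : ℝ := 1 - 1 / ((k : ℝ) * 2 ^ k) with hAd
  have hA0 : 0 < A := by linarith
  intro d
  induction d with
  | zero =>
    intro a
    show (if 2 ≤ nx F a then (1 : ℝ) else 0) ≤ _
    split_ifs with h
    · obtain ⟨C, p, h1, h2, h3⟩ := nx_some h
      obtain ⟨hp, hp1⟩ := find_spec h2
      have h4 : 1 ≤ mm a C := List.length_pos_of_mem (List.mem_filter.2 ⟨hp, hp1⟩)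
      obtain ⟨m, hm⟩ : ∃ m, mm a C = m + 1 := ⟨mm a C - 1, by omega⟩
      have h5 : (1 : ℝ) ≤ 3 ^ MM F k a := one_le_pow₀ (by norm_num)
      rw [pow_zero, mul_one]
      unfold Bd
      rw [h1]
      simp only
      split_ifs
      · have h6 := cc_half hA0 hA1 m
        rw [hm]
        nlinarith
      · linarith
    · exact mul_nonneg (Bd_nonneg F k hA0 a) (pow_nonneg hA0.le _)
  | succ d ih =>
    intro a
    show (if 2 ≤ nx F a then
      (W F d (a ++ [(nx F a - 2, true)]) + W F d (a ++ [(nx F a - 2, false)])) / 2 else 0) ≤ _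
    split_ifs with h
    · obtain ⟨C, p, h1, h2, h3⟩ := nx_some h
      obtain ⟨hC, hC1⟩ := find_spec h1
      obtain ⟨hp, hp1⟩ := find_spec h2
      have h4 : W F d (a ++ [(nx F a - 2, true)]) + W F d (a ++ [(nx F a - 2, false)]) =
          W F d (a ++ [p]) + W F d (a ++ [(p.1, !p.2)]) := by
        rw [h3, Nat.add_sub_cancel]
        obtain ⟨v, b⟩ := p
        cases b
        · rw [add_comm]; rfl
        · rfl
      rw [h4]
      have hAd0 : 0 ≤ A ^ d := pow_nonneg hA0.le _
      have h5 : W F d (a ++ [p]) ≤ 2 * 3 ^ MM F k (a ++ [p]) * A ^ d :=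
        (ih _).trans (mul_le_mul_of_nonneg_right (Bd_le F hk _) hAd0)
      have h6 := ih (a ++ [(p.1, !p.2)])
      have h7 := find_keep hF h1 hp
      have h8 : Bd F k A (a ++ [(p.1, !p.2)]) =
          if C.length ≤ k then 2 * cc A (mm (a ++ [(p.1, !p.2)]) C) *
            3 ^ MM F k (a ++ [(p.1, !p.2)]) else 2 * 3 ^ MM F k (a ++ [(p.1, !p.2)]) := by
        unfold Bd; rw [h7]
      have h9 : Bd F k A a =
          if C.length ≤ k then 2 * cc A (mm a C) * 3 ^ MM F k a else 2 * 3 ^ MM F k a := by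
        unfold Bd; rw [h1]
      have h10 : (3 : ℝ) ^ MM F k (a ++ [(p.1, !p.2)]) ≤ 3 ^ MM F k a :=
        pow_le_pow_right₀ (by norm_num) (MM_mono F k a _)
      have h11 : (3 : ℝ) ^ MM F k (a ++ [p]) ≤ 3 ^ MM F k a :=
        pow_le_pow_right₀ (by norm_num) (MM_mono F k a _)
      have hM0 : (0 : ℝ) < 3 ^ MM F k a := by positivity
      rw [h8] at h6
      rw [h9, pow_succ]
      by_cases hlen : C.length ≤ k
      · rw [if_pos hlen] at h6 ⊢
        have h12 := mm_succ (hF C hC).1 hp hp1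
        rw [h12]
        have h13 : cc A (mm (a ++ [(p.1, !p.2)]) C + 1) * A =
            (1 + cc A (mm (a ++ [(p.1, !p.2)]) C)) / 2 := by
          show (1 + cc A _) / (2 * A) * A = _
          field_simp
        have h14 := cc_nonneg hA0 (mm (a ++ [(p.1, !p.2)]) C)
        have h15 : 2 * cc A (mm (a ++ [(p.1, !p.2)]) C) * 3 ^ MM F k (a ++ [(p.1, !p.2)]) * A ^ d ≤
            2 * cc A (mm (a ++ [(p.1, !p.2)]) C) * 3 ^ MM F k a * A ^ d :=
          mul_le_mul_of_nonneg_right (mul_le_mul_of_nonneg_left h10 (by positivity)) hAd0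
        have h16 : 2 * 3 ^ MM F k (a ++ [p]) * A ^ d ≤ 2 * 3 ^ MM F k a * A ^ d :=
          mul_le_mul_of_nonneg_right (mul_le_mul_of_nonneg_left h11 (by norm_num)) hAd0
        have h17 : 2 * cc A (mm (a ++ [(p.1, !p.2)]) C + 1) * 3 ^ MM F k a * (A ^ d * A) =
            (1 + cc A (mm (a ++ [(p.1, !p.2)]) C)) * 3 ^ MM F k a * A ^ d := by
          calc _ = 2 * (cc A (mm (a ++ [(p.1, !p.2)]) C + 1) * A) * 3 ^ MM F k a * A ^ d := by ring
            _ = _ := by rw [h13]; ring
        rw [h17]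
        have h18 : (1 + cc A (mm (a ++ [(p.1, !p.2)]) C)) * 3 ^ MM F k a * A ^ d =
            (2 * 3 ^ MM F k a * A ^ d +
              2 * cc A (mm (a ++ [(p.1, !p.2)]) C) * 3 ^ MM F k a * A ^ d) / 2 := by ring
        rw [h18]
        linarith
      · rw [if_neg hlen] at h6 ⊢
        have h12 := MM_lt F k a p hC (by omega) hC1 hp
        have h13 : (3 : ℝ) ^ MM F k (a ++ [p]) * 3 ≤ 3 ^ MM F k a := by
          rw [← pow_succ]
          exact pow_le_pow_right₀ (by norm_num) h12
        have h15 : 2 * 3 ^ MM F k (a ++ [(p.1, !p.2)]) * A ^ d ≤ 2 * 3 ^ MM F k a * A ^ d :=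
          mul_le_mul_of_nonneg_right (mul_le_mul_of_nonneg_left h10 (by norm_num)) hAd0
        have h16 : 2 * 3 ^ MM F k (a ++ [p]) * A ^ d ≤ 2 * (3 ^ MM F k a / 3) * A ^ d :=
          mul_le_mul_of_nonneg_right (mul_le_mul_of_nonneg_left (by linarith) (by norm_num)) hAd0
        have h17 : 0 ≤ 3 ^ MM F k a * A ^ d := by positivity
        have h18 : (4 / 3 : ℝ) * (3 ^ MM F k a * A ^ d) ≤ (2 * A) * (3 ^ MM F k a * A ^ d) :=
          mul_le_mul_of_nonneg_right (by linarith) h17
        calc (W F d (a ++ [p]) + W F d (a ++ [(p.1, !p.2)])) / 2 ≤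
            (2 * (3 ^ MM F k a / 3) * A ^ d + 2 * 3 ^ MM F k a * A ^ d) / 2 := by linarith
          _ = (4 / 3 : ℝ) * (3 ^ MM F k a * A ^ d) := by ring
          _ ≤ (2 * A) * (3 ^ MM F k a * A ^ d) := h18
          _ = 2 * 3 ^ MM F k a * (A ^ d * A) := by ring
    · exact mul_nonneg (Bd_nonneg F k hA0 a) (pow_nonneg hA0.le _)

/-- **EXH.** -/
theorem exh : ExhStmt := by
  intro n k F D hk hF
  have h1 : pr (fun x : Fin n → Bool => 2 ≤ nx F (run F x D)) = W F D [] := pr_it hF D []
  rw [h1]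
  obtain ⟨hA, hA1⟩ := AA_bounds hk
  refine (W_le hF hk D []).trans ?_
  refine mul_le_mul_of_nonneg_right ?_ (pow_nonneg (by linarith) _)
  refine (Bd_le F hk []).trans (le_of_eq ?_)
  congr 2
  unfold MM
  congr 1
  refine List.filter_congr fun C _ => ?_
  have : f1 [] C = true := by rw [f1_iff]; simp
  rw [this, Bool.and_true]

end EXH

end Pool.Agent.Helper60.SX
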