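import Pool.Agent.Helper52.SX.Goals2

/-!
# SX-FCT: search for circuits from the search for tuples
-/

namespace Pool.Agent.Helper60.SX

open Pool.Agent.Helper81.CC Pool.Agent.Helper78.DT Pool.Agent.Helper51.ZP Pool.Agent.Helper65.CS
open Pool.Agent.Helper52.SX
open Pool.Agent.Helper78.JT (Clause CList Circuit Holds out cnt size Narrow)
open scoped Classical

/-- The union bound for a list. -/
theorem pr_list {α Ω : Type*} [Fintype Ω] (B : ℝ) (E : α → Ω → Prop) :
    ∀ l : List α, (∀ a ∈ l, pr (E a) ≤ B) → pr (fun w => ∃ a ∈ l, E a w) ≤ l.length * B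
  | [], _ => by
    have : pr (fun w : Ω => ∃ a ∈ ([] : List α), E a w) = 0 := by simp [pr, av]
    rw [this]; simp
  | a :: l, h => by
    have h1 : pr (fun w => ∃ b ∈ a :: l, E b w) ≤ pr (fun w => E a w ∨ ∃ b ∈ l, E b w) :=
      pr_mono fun w => by
        rintro ⟨b, hb, hE⟩
        rcases List.mem_cons.1 hb with rfl | hb
        · exact Or.inl hE
        · exact Or.inr ⟨b, hb, hE⟩
    have h2 := pr_or_le (E a) (fun w => ∃ b ∈ l, E b w)
    have h3 := pr_list B E l fun b hb => h b (List.mem_cons_of_mem _ hb)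
    have h4 := h a List.mem_cons_self
    have h5 : ((a :: l).length : ℝ) * B = B + l.length * B := by
      rw [List.length_cons]; push_cast; ring
    rw [h5]
    exact h1.trans (h2.trans (add_le_add h4 h3))

/-- The size of a list of tests is at least their number. -/
theorem length_le_lsize (f : CList) : f.length ≤ Pool.Agent.Helper78.JT.lsize f := by
  unfold Pool.Agent.Helper78.JT.lsize
  induction f with
  | nil => simp
  | cons e f ih => rw [List.map_cons, List.sum_cons, List.length_cons]; omega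

/-- The number of all tests is at most the size. -/
theorem flatten_le (z : Circuit) : z.2.1.flatten.length ≤ size z := by
  have h : ∀ l : List CList, l.flatten.length ≤
      (l.map fun f => 1 + Pool.Agent.Helper78.JT.lsize f).sum := by
    intro l
    induction l with
    | nil => simp
    | cons f l ih =>
      rw [List.flatten_cons, List.length_append, List.map_cons, List.sum_cons]
      have := length_le_lsize f
      omega
  unfold size
  have := h z.2.1
  omega

theorem list_le (z : Circuit) {f : CList} (hf : f ∈ z.2.1) : f.length ≤ size z := by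
  refine le_trans ?_ (flatten_le z)
  have h : ∀ l : List CList, f ∈ l → f.length ≤ l.flatten.length := by
    intro l hl
    induction l with
    | nil => simp at hl
    | cons g l ih =>
      rw [List.flatten_cons, List.length_append]
      rcases List.mem_cons.1 hl with rfl | hl
      · omega
      · have := ih hl; omega
  exact h _ hf

theorem vars_le (z : Circuit) : z.1 ≤ size z := by unfold size; omega

theorem two_pow_lg (N : ℕ) : 2 ^ lg N ≤ 4 * N + 4 := by
  unfold lg
  rcases Nat.eq_zero_or_pos N with rfl | h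
  · norm_num
  · rw [pow_add]
    have := Nat.pow_log_le_self 2 h.ne'
    omega

theorem lg_big (N m : ℕ) (hm : 4 ≤ m) : 4 * lg N ≤ lg ((4 * N + 4) ^ m) := by
  have h1 : 2 ^ (Nat.log 2 N + 2) ≤ 4 * N + 4 := two_pow_lg N
  have h2 : 2 ^ ((Nat.log 2 N + 2) * 4) ≤ (4 * N + 4) ^ m := by
    rw [pow_mul]
    exact (Nat.pow_le_pow_left h1 4).trans (Nat.pow_le_pow_right (by omega) hm)
  have h3 : (Nat.log 2 N + 2) * 4 ≤ Nat.log 2 ((4 * N + 4) ^ m) :=
    Nat.le_log_of_pow_le (by norm_num) h2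
  unfold lg
  omega

/-- `pr` is the proportion. -/
theorem fract_eq (n : ℕ) (T : Tup) :
    fract n T = pr fun r : Fin n → Bool => tv r T = true := by
  rw [pr_eq_card]
  unfold fract
  simp

theorem cnt_eq (z : Circuit) :
    (cnt z : ℝ) / 2 ^ z.1 = pr fun r : Fin z.1 → Bool => out z r = true := by
  rw [pr_eq_card]
  unfold cnt
  simp

/-- The exceptional event, for all tests. -/
theorem bad_le (hcln : ClnStmt) (hexh : ExhStmt) (k K0 c : ℕ) (hk : 2 ≤ k)
    (hK0 : ∀ N : ℕ, (N : ℝ) * (2 * 3 ^ (k * (Nat.log 2 N + 1)) *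
      (1 - 1 / ((k : ℝ) * 2 ^ k)) ^ (K0 * lg N)) ≤ 1 / (4 * (lg N : ℝ) ^ c))
    (z : Circuit)
    (hn : ∀ f ∈ z.2.1, ∀ e ∈ f, (e.1.filter fun C => decide (k < C.length)).length ≤
      k * (Nat.log 2 (size z) + 1)) :
    pr (fun x : Fin z.1 → Bool => ∃ f ∈ z.2.1, ∃ e ∈ f,
      2 ≤ nx (cl z.1 e.1) (run (cl z.1 e.1) x (K0 * lg (size z)))) ≤
      1 / (4 * (lg (size z) : ℝ) ^ c) := by
  set A : ℝ := 1 - 1 / ((k : ℝ) * 2 ^ k) with hA
  have hk0 : (0 : ℝ) < (k : ℝ) * 2 ^ k := by positivity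
  have hA0 : 0 ≤ A := by
    have h1 : (1 : ℝ) ≤ (k : ℝ) * 2 ^ k := by
      have h2 : (1 : ℝ) ≤ (k : ℝ) := by exact_mod_cast (by omega : 1 ≤ k)
      have h3 : (1 : ℝ) ≤ 2 ^ k := one_le_pow₀ (by norm_num)
      nlinarith
    have : 1 / ((k : ℝ) * 2 ^ k) ≤ 1 := by
      rw [div_le_one hk0]; exact h1
    rw [hA]; linarith
  set D := K0 * lg (size z) with hD
  set B : ℝ := 2 * 3 ^ (k * (Nat.log 2 (size z) + 1)) * A ^ D with hB
  have hB0 : 0 ≤ B := by rw [hB]; positivity
  have h1 : pr (fun x : Fin z.1 → Bool => ∃ f ∈ z.2.1, ∃ e ∈ f,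
      2 ≤ nx (cl z.1 e.1) (run (cl z.1 e.1) x D)) ≤
      pr (fun x : Fin z.1 → Bool => ∃ e ∈ z.2.1.flatten,
        2 ≤ nx (cl z.1 e.1) (run (cl z.1 e.1) x D)) :=
    pr_mono fun x => by
      rintro ⟨f, hf, e, he, h⟩
      exact ⟨e, List.mem_flatten.2 ⟨f, hf, he⟩, h⟩
  have h2 := pr_list B (fun (e : List Clause × Bool) (x : Fin z.1 → Bool) =>
    2 ≤ nx (cl z.1 e.1) (run (cl z.1 e.1) x D)) z.2.1.flatten (by
      intro e he
      obtain ⟨f, hf, he⟩ := List.mem_flatten.1 he
      obtain ⟨hc1, _, hc3⟩ := hcln z.1 e.1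
      have h3 := hexh z.1 k (cl z.1 e.1) D hk hc1
      refine h3.trans ?_
      rw [hB]
      refine mul_le_mul_of_nonneg_right ?_ (pow_nonneg hA0 _)
      refine mul_le_mul_of_nonneg_left ?_ (by norm_num)
      exact pow_le_pow_right₀ (by norm_num) ((hc3 k).trans (hn f hf e he)))
  have h3 : (z.2.1.flatten.length : ℝ) * B ≤ (size z : ℝ) * B :=
    mul_le_mul_of_nonneg_right (by exact_mod_cast flatten_le z) hB0
  exact h1.trans (h2.trans (h3.trans (hK0 (size z))))

/-- **FCT.** -/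
theorem fct (hcln : ClnStmt) (hval : ValStmt) (hcnv : CnvStmt) (hexh : ExhStmt)
    (herr : ErrStmt) (hpcv : PcvStmt) : FctStmt := by
  intro hF c k e
  obtain ⟨K0, hK0⟩ := herr c (k + 2) (by omega)
  obtain ⟨hps, hpc⟩ := hpcv K0
  obtain ⟨f, hf, hfs⟩ := hF (c + 1) K0 (e + 1)
  refine ⟨fun z => f (z.1, cnv (K0 * lg (size z)) (min z.2.1.length (lg (size z))) z,
    (4 * size z + 4) ^ (K0 + 4)), ?_, ?_⟩
  · have hN : PolyTime fun z : Circuit => (4 * size z + 4) ^ (K0 + 4) :=
      PolyTime.pow (PolyTime.add (PolyTime.mul (PolyTime.const 4) hps) (PolyTime.const 4)) _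
    exact (PolyTime.comp hf (PolyTime.pair (PolyTime.fst PolyTime.id')
      (PolyTime.pair hpc hN))).computable
  · intro z hz hr hc
    set N0 := size z with hN0
    set L := lg N0 with hL
    set r := z.2.1.length with hrr
    have hL2 : 2 ≤ L := by rw [hL]; unfold lg; omega
    have hrL : r ≤ L := by
      by_contra hh
      push Not at hh
      have h1 : L ^ (e + 1) < r ^ (e + 1) := Nat.pow_lt_pow_left hh (by omega)
      have h2 : L ^ e ≤ L ^ (e + 1) := Nat.pow_le_pow_right (by omega) (by omega)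
      have h3 : r ^ (e + 1) ≤ L ^ e := hr
      omega
    have hmin : min r L = r := min_eq_left hrL
    show ∃ x : Fin z.1 → Bool, out z x = true ∧
      f (z.1, cnv (K0 * L) (min r L) z, (4 * N0 + 4) ^ (K0 + 4)) = List.ofFn x
    rw [hmin]
    set N := (4 * N0 + 4) ^ (K0 + 4) with hN
    set T := cnv (K0 * L) r z with hT
    have hlgN : 4 * L ≤ lg N := lg_big N0 (K0 + 4) (by omega)
    -- the tuple
    have hlen : T.1.length = 2 * r := by
      rw [hT]; unfold cnv; simp [List.length_append, List.length_map]; omega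
    have hN1 : z.1 ≤ N := by
      have h1 : z.1 ≤ N0 := vars_le z
      have h2 : 4 * N0 + 4 ≤ N := by
        rw [hN]; exact Nat.le_self_pow (by omega) _
      omega
    have hpow : 2 ^ (K0 * L) ≤ (4 * N0 + 4) ^ K0 := by
      rw [mul_comm, pow_mul]
      exact Nat.pow_le_pow_left (two_pow_lg N0) K0
    have hbig : ∀ m ≤ N0, m * 2 ^ (K0 * L) + 1 ≤ N := by
      intro m hm
      have h1 : 1 ≤ (4 * N0 + 4) ^ K0 := Nat.one_le_pow _ _ (by omega)
      have h2 : m * 2 ^ (K0 * L) ≤ N0 * (4 * N0 + 4) ^ K0 := Nat.mul_le_mul hm hpow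
      have h3 : N0 * (4 * N0 + 4) ^ K0 + 1 ≤ (4 * N0 + 4) ^ (K0 + 1) := by
        rw [pow_succ]
        nlinarith
      have h4 : (4 * N0 + 4) ^ (K0 + 1) ≤ N := by
        rw [hN]; exact Nat.pow_le_pow_right (by omega) (by omega)
      omega
    have hNFm : ∀ F : DList, NF z.1 (K0 * L) F → NF z.1 (K0 * lg N) F := by
      intro F hF e he
      obtain ⟨h1, h2, h3⟩ := hF e he
      exact ⟨h1, h2.trans (Nat.mul_le_mul_left _ (by omega)), h3⟩
    have hNFT : NFT z.1 (K0 * lg N) N T := by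
      intro F hF
      have hF' : F ∈ z.2.1.map (vls z.1 (K0 * L)) ++ z.2.1.map (ols z.1 (K0 * L)) := hF
      rcases List.mem_append.1 hF' with h | h
      · obtain ⟨g, hg, rfl⟩ := List.mem_map.1 h
        obtain ⟨v1, v2, v3, v4, v5⟩ := hval z.1 (K0 * L) g
        refine ⟨hNFm _ v1, ?_⟩
        have := hbig g.length (list_le z hg)
        omega
      · obtain ⟨g, hg, rfl⟩ := List.mem_map.1 h
        obtain ⟨v1, v2, v3, v4, v5⟩ := hval z.1 (K0 * L) g
        refine ⟨hNFm _ v2, ?_⟩
        have := hbig g.length (list_le z hg)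
        omega
    have hTlen : T.1.length ^ (e + 1 + 1) ≤ lg N ^ (e + 1) := by
      rw [hlen]
      have h1 : (2 * r) ^ (e + 1 + 1) = 2 ^ (e + 2) * (r * r ^ (e + 1)) := by
        rw [mul_pow]; ring
      have h2 : r * r ^ (e + 1) ≤ L * L ^ e := Nat.mul_le_mul hrL hr
      have h3 : 2 ^ (e + 2) ≤ 4 ^ (e + 1) := by
        rw [show (4 : ℕ) = 2 ^ 2 by norm_num, ← pow_mul]
        exact Nat.pow_le_pow_right (by norm_num) (by omega)
      calc (2 * r) ^ (e + 1 + 1) = 2 ^ (e + 2) * (r * r ^ (e + 1)) := h1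
        _ ≤ 4 ^ (e + 1) * (L * L ^ e) := Nat.mul_le_mul h3 h2
        _ = (4 * L) ^ (e + 1) := by rw [mul_pow]; ring
        _ ≤ lg N ^ (e + 1) := Nat.pow_le_pow_left hlgN _
    -- the fraction
    have hLR : (0 : ℝ) < (L : ℝ) ^ c := by
      have : (0 : ℝ) < L := by exact_mod_cast (by omega : 0 < L)
      positivity
    have hout : 1 / (L : ℝ) ^ c ≤ pr fun x : Fin z.1 → Bool => out z x = true := by
      rw [← cnt_eq, div_le_div_iff₀ hLR (by positivity), one_mul]
      have h1 : ((2 ^ z.1 : ℕ) : ℝ) ≤ ((L ^ c * cnt z : ℕ) : ℝ) := by exact_mod_cast hc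
      push_cast at h1
      linarith
    have hnar : ∀ f ∈ z.2.1, ∀ e ∈ f, (e.1.filter fun C => decide (k + 2 < C.length)).length ≤
        (k + 2) * (Nat.log 2 (size z) + 1) := by
      intro f hf e he
      have h1 := hz f hf e he
      have h2 : (e.1.filter fun C => decide (k + 2 < C.length)).length ≤
          (e.1.filter fun C => decide (k < C.length)).length :=
        (List.monotone_filter_right e.1 (fun C hC => by
          simp only [decide_eq_true_eq] at hC ⊢; omega)).length_le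
      refine h2.trans (h1.trans ?_)
      exact Nat.mul_le_mul_right _ (by omega)
    have hbad := bad_le hcln hexh (k + 2) K0 c (by omega) hK0 z hnar
    have himp : (pr fun x : Fin z.1 → Bool => out z x = true) ≤
        (pr fun x : Fin z.1 → Bool => tv x T = true) +
        pr (fun x : Fin z.1 → Bool => ∃ f ∈ z.2.1, ∃ e ∈ f,
          2 ≤ nx (cl z.1 e.1) (run (cl z.1 e.1) x (K0 * L))) :=
      pr_le_add_of_imp fun x hx => (hcnv (K0 * L) z x).2 hx
    have hfr : 1 / (lg N : ℝ) ^ (c + 1) ≤ fract z.1 T := by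
      rw [fract_eq]
      have h1 : (1 : ℝ) / (lg N : ℝ) ^ (c + 1) ≤ 1 / (4 * (L : ℝ) ^ c) := by
        refine one_div_le_one_div_of_le (by positivity) ?_
        have h2 : ((4 * L : ℕ) : ℝ) ≤ (lg N : ℝ) := by exact_mod_cast hlgN
        have h3 : (1 : ℝ) ≤ L := by exact_mod_cast (by omega : 1 ≤ L)
        have h4 : (4 * (L : ℝ)) ^ (c + 1) ≤ (lg N : ℝ) ^ (c + 1) := by
          push_cast at h2
          exact pow_le_pow_left₀ (by positivity) h2 _
        refine le_trans ?_ h4
        have h5 : (4 * (L : ℝ)) ^ (c + 1) = 4 ^ (c + 1) * ((L : ℝ) ^ c * L) := by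
          rw [mul_pow, pow_succ (L : ℝ) c]
        rw [h5]
        have h6 : (4 : ℝ) ≤ 4 ^ (c + 1) := by
          have := one_le_pow₀ (n := c) (by norm_num : (1 : ℝ) ≤ 4)
          rw [pow_succ]; linarith
        have h7 : (L : ℝ) ^ c ≤ (L : ℝ) ^ c * L := by nlinarith
        exact mul_le_mul h6 h7 hLR.le (by positivity)
      have h8 : 1 / (4 * (L : ℝ) ^ c) = (1 / 4) * (1 / (L : ℝ) ^ c) := by
        rw [one_div_mul_one_div]
      have h9 : 0 ≤ 1 / (L : ℝ) ^ c := by positivity
      have hbad' : pr (fun x : Fin z.1 → Bool => ∃ f ∈ z.2.1, ∃ e ∈ f,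
          2 ≤ nx (cl z.1 e.1) (run (cl z.1 e.1) x (K0 * L))) ≤ 1 / (4 * (L : ℝ) ^ c) := hbad
      linarith
    obtain ⟨x, hx, hfx⟩ := hfs z.1 N T hN1 hNFT hTlen hfr
    exact ⟨x, (hcnv (K0 * L) z x).1 hx, hfx⟩

end Pool.Agent.Helper60.SX
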